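import Mathlib
import Pool.Agent.Y586.NB.Rank

/-!
# Noetherian bases whose rank is nowhere larger
-/

set_option autoImplicit false

universe u

namespace Pool.Agent.Results.MP_d968d9_gt.RankPreserving

open Pool.Agent.Helper332.NB Pool.Agent.Y586.NB

/-- `RankLE Γ x n`: the family `Γ` has rank at most `n` at the point `x`. Every base `B` of
point-finite rank of a `T1` space can be replaced by a Noetherian base `B'` of nonempty sets whose
rank at each single point is not larger than the rank of `B` at this point; in particular `B'` has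
point-finite and subinfinite rank. Moreover every finite subset of a member `U` of `B'` is
contained in a member of `B` which is contained in `U`. Hence a `T1` space with a base of rank at
most `n` has a Noetherian base of rank at most `n`, for each `n`. The `T1` assumption cannot be
dropped: there is a `T0` space with a base of rank one no base of which is Noetherian. -/
theorem result :
    (∀ (X : Type u) [TopologicalSpace X] [T1Space X] (B : Set (Set X)),
      TopologicalSpace.IsTopologicalBasis B → PointFiniteRank B →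
      ∃ B' : Set (Set X), TopologicalSpace.IsTopologicalBasis B' ∧ Noetherian B' ∧
        (∀ (x : X) (n : ℕ), RankLE B x n → RankLE B' x n) ∧
        PointFiniteRank B' ∧ SubinfiniteRank B' ∧ (∀ U ∈ B', U.Nonempty) ∧
        ∀ U ∈ B', ∀ F : Set X, F.Finite → F ⊆ U → ∃ V ∈ B, F ⊆ V ∧ V ⊆ U) ∧
    (∀ (n : ℕ) (X : Type u) [TopologicalSpace X] [T1Space X] (B : Set (Set X)),
      TopologicalSpace.IsTopologicalBasis B → (∀ x, RankLE B x n) →
      ∃ B' : Set (Set X), TopologicalSpace.IsTopologicalBasis B' ∧ Noetherian B' ∧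
        ∀ x, RankLE B' x n) ∧
    ∃ (X : Type) (_ : TopologicalSpace X), T0Space X ∧
      (∃ B : Set (Set X), TopologicalSpace.IsTopologicalBasis B ∧ PointFiniteRank B ∧
        ∀ x : X, ∀ U ∈ B, ∀ V ∈ B, x ∈ U → x ∈ V → U ⊆ V ∨ V ⊆ U) ∧
      ∀ B : Set (Set X), TopologicalSpace.IsTopologicalBasis B → ¬ Noetherian B := by
  have key : ∀ (X : Type u) [TopologicalSpace X] [T1Space X] (B : Set (Set X)),
      TopologicalSpace.IsTopologicalBasis B → PointFiniteRank B →
      ∃ B' : Set (Set X), TopologicalSpace.IsTopologicalBasis B' ∧ Noetherian B' ∧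
        (∀ (x : X) (n : ℕ), RankLE B x n → RankLE B' x n) ∧
        PointFiniteRank B' ∧ SubinfiniteRank B' ∧ (∀ U ∈ B', U.Nonempty) ∧
        ∀ U ∈ B', ∀ F : Set X, F.Finite → F ⊆ U → ∃ V ∈ B, F ⊆ V ∧ V ⊆ U := by
    intro X _ _ B hB hr
    obtain ⟨B', h1, h2, h3, h4⟩ := Pool.Agent.Y586.NB.main hB hr
    have h5 : ∀ (x : X) (n : ℕ), RankLE B x n → RankLE B' x n :=
      fun x n hn => rank_sub_cl h3 hn
    have h6 : PointFiniteRank B' := fun x => by
      obtain ⟨n, hn⟩ := hr x
      exact ⟨n, h5 x n hn⟩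
    exact ⟨B', h1, h2, h5, h6, h6.subinfinite, h4, fun U hU => h3 hU⟩
  refine ⟨key, ?_, ?_⟩
  · intro n X _ _ B hB hr
    obtain ⟨B', h1, h2, h3, -⟩ := key X B hB fun x => ⟨n, hr x⟩
    exact ⟨B', h1, h2, fun x => h3 x n (hr x)⟩
  let t : TopologicalSpace ℕ :=
    { IsOpen := fun s => IsLowerSet s
      isOpen_univ := isLowerSet_univ
      isOpen_inter := fun s u hs hu => hs.inter hu
      isOpen_sUnion := fun S hS => isLowerSet_sUnion hS }
  have hopen : ∀ s : Set ℕ, @IsOpen ℕ t s ↔ IsLowerSet s := fun s => Iff.rfl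
  have hIic : ∀ n : ℕ, @IsOpen ℕ t (Set.Iic n) := fun n => isLowerSet_Iic n
  refine ⟨ℕ, t, ?_, ⟨Set.range Set.Iic, ?_, ?_, ?_⟩, ?_⟩
  · refine @T0Space.mk ℕ t fun x y hxy => ?_
    have h1 := (@inseparable_iff_forall_isOpen ℕ t x y).1 hxy (Set.Iic x) (hIic x)
    have h2 := (@inseparable_iff_forall_isOpen ℕ t x y).1 hxy (Set.Iic y) (hIic y)
    exact le_antisymm (h2.2 (Set.mem_Iic.2 le_rfl)) (h1.1 (Set.mem_Iic.2 le_rfl))
  · refine @TopologicalSpace.isTopologicalBasis_of_isOpen_of_nhds ℕ t _ ?_ ?_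
    · rintro _ ⟨n, rfl⟩
      exact hIic n
    · intro a u ha hu
      exact ⟨Set.Iic a, ⟨a, rfl⟩, Set.mem_Iic.2 le_rfl, fun b hb => (hopen u).1 hu hb ha⟩
  · intro x
    refine ⟨1, fun A hA _ hinc => ?_⟩
    rw [Nat.cast_one, Set.encard_le_one_iff]
    intro U V hU hV
    obtain ⟨m, rfl⟩ := hA hU
    obtain ⟨n, rfl⟩ := hA hV
    rcases le_total m n with h | h
    · exact hinc _ hU _ hV (Set.Iic_subset_Iic.2 h)
    · exact (hinc _ hV _ hU (Set.Iic_subset_Iic.2 h)).symm
  · rintro x _ ⟨m, rfl⟩ _ ⟨n, rfl⟩ _ _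
    rcases le_total m n with h | h
    · exact Or.inl (Set.Iic_subset_Iic.2 h)
    · exact Or.inr (Set.Iic_subset_Iic.2 h)
  · intro B hB hN
    refine hN ⟨fun n => Set.Iic n, ?_, ?_⟩
    · intro n
      obtain ⟨V, hV, hnV, hVn⟩ := hB.exists_subset_of_mem_open (Set.mem_Iic.2 (le_refl n)) (hIic n)
      have hVlow : IsLowerSet V := (hopen V).1 (hB.isOpen hV)
      have : V = Set.Iic n := Set.Subset.antisymm hVn fun b hb => hVlow hb hnV
      show Set.Iic n ∈ B
      rw [← this]; exact hV
    · intro n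
      exact Set.Iic_ssubset_Iic.2 (Nat.lt_succ_self n)

end Pool.Agent.Results.MP_d968d9_gt.RankPreserving
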